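import Mathlib

/-!
# Polynomially many vertices of reachable sets: sets of matrices that are not strongly irreducible

We prove the polynomial-vertex property for every finite set `S` of real `2 × 2` matrices whose
invertible matrices satisfy one of the following: they have a common invariant line; they are, in a
common basis, diagonal or antidiagonal; they are, in a common basis, scalar multiples of rotations
or of reflections.
-/

set_option autoImplicit false

namespace Pool.Agent.Results.MP_eceddd_an.NotStronglyIrreducible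

open Matrix

variable {n : ℕ}

/-- The states that can be reached from `a` in `k` steps `x ↦ T x` with `T ∈ S`. -/
def reach (S : Finset (Matrix (Fin n) (Fin n) ℝ)) (a : Fin n → ℝ) : ℕ → Set (Fin n → ℝ)
  | 0 => {a}
  | k + 1 => {y | ∃ T ∈ S, ∃ x ∈ reach S a k, y = T *ᵥ x}

/-- The number of extreme points of the convex hull `P_k(S, a)` of the reachable states. -/
noncomputable def numExt (S : Finset (Matrix (Fin n) (Fin n) ℝ)) (k : ℕ) (a : Fin n → ℝ) : ℕ :=
  (Set.extremePoints ℝ (convexHull ℝ (reach S a k))).ncard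

/-- Property (PV): `N_k(S) = sup_a numExt S k a` is at most `α k ^ d` for all large `k`. -/
def PV (S : Finset (Matrix (Fin n) (Fin n) ℝ)) : Prop :=
  ∃ α d : ℝ, 0 < α ∧ 0 < d ∧ ∃ k₀ : ℕ, 0 < k₀ ∧ ∀ k ≥ k₀, ∀ a : Fin n → ℝ,
    (numExt S k a : ℝ) ≤ α * (k : ℝ) ^ d

/-- the products of `k` matrices of `S` -/
def prods (S : Finset (Matrix (Fin n) (Fin n) ℝ)) : ℕ → Set (Matrix (Fin n) (Fin n) ℝ)
  | 0 => {1}
  | k + 1 => {N | ∃ T ∈ S, ∃ M ∈ prods S k, N = T * M}

lemma reach_eq (S : Finset (Matrix (Fin n) (Fin n) ℝ)) (a : Fin n → ℝ) (k : ℕ) :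
    reach S a k = (fun M : Matrix (Fin n) (Fin n) ℝ => M *ᵥ a) '' prods S k := by
  induction k with
  | zero => simp [reach, prods]
  | succ k ih =>
    ext y
    constructor
    · rintro ⟨T, hT, x, hx, rfl⟩
      rw [ih] at hx
      obtain ⟨M, hM, rfl⟩ := hx
      exact ⟨T * M, ⟨T, hT, M, hM, rfl⟩, by simp [mulVec_mulVec]⟩
    · rintro ⟨_, ⟨T, hT, M, hM, rfl⟩, rfl⟩
      refine ⟨T, hT, M *ᵥ a, ?_, by simp [mulVec_mulVec]⟩
      rw [ih]
      exact ⟨M, hM, rfl⟩

lemma reach_finite (S : Finset (Matrix (Fin n) (Fin n) ℝ)) (a : Fin n → ℝ) (k : ℕ) :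
    (reach S a k).Finite ∧ (reach S a k).ncard ≤ S.card ^ k := by
  classical
  induction k with
  | zero => exact ⟨Set.finite_singleton a, by simp [reach]⟩
  | succ k ih =>
    have h1 : reach S a (k + 1) ⊆ (fun p : Matrix (Fin n) (Fin n) ℝ × (Fin n → ℝ) => p.1 *ᵥ p.2) ''
        ((S : Set (Matrix (Fin n) (Fin n) ℝ)) ×ˢ reach S a k) := by
      rintro y ⟨T, hT, x, hx, rfl⟩
      exact ⟨(T, x), ⟨hT, hx⟩, rfl⟩
    have hf : ((S : Set (Matrix (Fin n) (Fin n) ℝ)) ×ˢ reach S a k).Finite :=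
      (Finset.finite_toSet S).prod ih.1
    refine ⟨(hf.image _).subset h1, ?_⟩
    calc _ ≤ _ := Set.ncard_le_ncard h1 (hf.image _)
      _ ≤ _ := Set.ncard_image_le hf
      _ = S.card * (reach S a k).ncard := by rw [Set.ncard_prod, Set.ncard_coe_finset]
      _ ≤ S.card * S.card ^ k := Nat.mul_le_mul_left _ ih.2
      _ = _ := by rw [pow_succ, mul_comm]

lemma numExt_le (S : Finset (Matrix (Fin n) (Fin n) ℝ)) (k : ℕ) (a : Fin n → ℝ) :
    numExt S k a ≤ S.card ^ k :=
  (Set.ncard_le_ncard extremePoints_convexHull_subset (reach_finite S a k).1).trans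
    (reach_finite S a k).2

/-- all values of `T` are multiples of one vector -/
def R1 (T : Matrix (Fin n) (Fin n) ℝ) : Prop :=
  ∃ (u : Fin n → ℝ) (c : (Fin n → ℝ) → ℝ), ∀ x, T *ᵥ x = c x • u

/-- matrices of rank at most one -/
lemma rank_one {T : Matrix (Fin n) (Fin n) ℝ} (h : T.rank ≤ 1) : R1 T := by
  have h1 : Module.finrank ℝ (LinearMap.range T.mulVecLin) ≤ 1 := h
  rw [finrank_le_one_iff] at h1
  obtain ⟨v, hv⟩ := h1
  have h2 : ∀ x : Fin n → ℝ, ∃ c : ℝ, T *ᵥ x = c • v.1 := by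
    intro x
    obtain ⟨c, hc⟩ := hv ⟨T.mulVecLin x, LinearMap.mem_range_self _ x⟩
    refine ⟨c, ?_⟩
    have := congrArg Subtype.val hc
    simpa using this.symm
  choose c hc using h2
  exact ⟨v.1, c, hc⟩

/-- forward composition -/
lemma reach_comp {S₀ S : Finset (Matrix (Fin n) (Fin n) ℝ)} (hsub : S₀ ⊆ S) {a x : Fin n → ℝ}
    {j m : ℕ} (hx : x ∈ reach S a j) {M : Matrix (Fin n) (Fin n) ℝ} (hM : M ∈ prods S₀ m) :
    M *ᵥ x ∈ reach S a (j + m) := by
  induction m generalizing M with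
  | zero =>
    have : M = 1 := hM
    rw [this, one_mulVec]
    exact hx
  | succ m ih =>
    obtain ⟨T, hT, M', hM', rfl⟩ := hM
    rw [← mulVec_mulVec]
    exact ⟨T, hsub hT, _, ih hM', rfl⟩

/-- decomposition at the last matrix outside `S₀` -/
lemma decomp (S₀ S : Finset (Matrix (Fin n) (Fin n) ℝ)) (a : Fin n → ℝ) (k : ℕ) :
    ∀ y ∈ reach S a k, y ∈ reach S₀ a k ∨ ∃ j m : ℕ, j + 1 + m = k ∧ ∃ T ∈ S, T ∉ S₀ ∧
      ∃ x ∈ reach S a j, ∃ M ∈ prods S₀ m, y = M *ᵥ (T *ᵥ x) := by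
  induction k with
  | zero =>
    intro y hy
    exact Or.inl hy
  | succ k ih =>
    rintro y ⟨T, hT, x, hx, rfl⟩
    by_cases hT0 : T ∈ S₀
    · rcases ih x hx with h | ⟨j, m, hjm, T', hT', hT'0, x', hx', M, hM, rfl⟩
      · exact Or.inl ⟨T, hT0, x, h, rfl⟩
      · exact Or.inr ⟨j, m + 1, by omega, T', hT', hT'0, x', hx', T * M, ⟨T, hT0, M, hM, rfl⟩,
          by rw [mulVec_mulVec]⟩
    · exact Or.inr ⟨k, 0, rfl, T, hT, hT0, x, hx, 1, rfl, by rw [one_mulVec]⟩

lemma ext_of_subset {A B : Set (Fin n → ℝ)} (h : A ⊆ B) {y : Fin n → ℝ} (hy : y ∈ A)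
    (hyB : y ∈ Set.extremePoints ℝ (convexHull ℝ B)) : y ∈ Set.extremePoints ℝ (convexHull ℝ A) :=
  inter_extremePoints_subset_extremePoints_of_subset (convexHull_mono h)
    ⟨subset_convexHull ℝ A hy, hyB⟩

/-- the extreme points that pass through a matrix of rank at most one at time `j` -/
lemma through {S₀ S : Finset (Matrix (Fin n) (Fin n) ℝ)} (hsub : S₀ ⊆ S) (a : Fin n → ℝ)
    {T : Matrix (Fin n) (Fin n) ℝ} (hT : T ∈ S) (hr : R1 T) (j m : ℕ) :
    ∃ lo hi : Fin n → ℝ, ∀ y ∈ Set.extremePoints ℝ (convexHull ℝ (reach S a (j + 1 + m))),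
      (∃ x ∈ reach S a j, ∃ M ∈ prods S₀ m, y = M *ᵥ (T *ᵥ x)) →
      y ∈ Set.extremePoints ℝ (convexHull ℝ (reach S₀ lo m)) ∨
      y ∈ Set.extremePoints ℝ (convexHull ℝ (reach S₀ hi m)) := by
  obtain ⟨u, c, hc⟩ := hr
  rcases (reach S a j).eq_empty_or_nonempty with he | hne
  · refine ⟨0, 0, fun y _ ⟨x, hx, _⟩ => ?_⟩
    rw [he] at hx
    exact absurd hx (Set.notMem_empty x)
  obtain ⟨x0, hx0, hmin⟩ := Set.exists_min_image _ c (reach_finite S a j).1 hne
  obtain ⟨x1, hx1, hmax⟩ := Set.exists_max_image _ c (reach_finite S a j).1 hne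
  have hsubr : ∀ x ∈ reach S a j, reach S₀ (T *ᵥ x) m ⊆ reach S a (j + 1 + m) := by
    intro x hx y hy
    rw [reach_eq] at hy
    obtain ⟨M, hM, rfl⟩ := hy
    exact reach_comp hsub (j := j + 1) ⟨T, hT, x, hx, rfl⟩ hM
  have hmem : ∀ (x : Fin n → ℝ) (M : Matrix (Fin n) (Fin n) ℝ), M ∈ prods S₀ m →
      M *ᵥ (T *ᵥ x) ∈ reach S₀ (T *ᵥ x) m := by
    intro x M hM
    rw [reach_eq]
    exact ⟨M, hM, rfl⟩
  refine ⟨T *ᵥ x0, T *ᵥ x1, ?_⟩
  rintro y hy ⟨x, hx, M, hM, rfl⟩
  have key : M *ᵥ (T *ᵥ x) = M *ᵥ (T *ᵥ x0) ∨ M *ᵥ (T *ᵥ x) = M *ᵥ (T *ᵥ x1) := by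
    rcases (hmin x hx).eq_or_lt with h | h
    · left
      rw [hc x, hc x0, h]
    rcases (hmax x hx).eq_or_lt with h' | h'
    · right
      rw [hc x, hc x1, h']
    left
    have h3 : 0 < c x1 - c x0 := by linarith
    have hseg : M *ᵥ (T *ᵥ x) ∈ openSegment ℝ (M *ᵥ (T *ᵥ x0)) (M *ᵥ (T *ᵥ x1)) := by
      refine ⟨(c x1 - c x) / (c x1 - c x0), (c x - c x0) / (c x1 - c x0),
        div_pos (by linarith) h3, div_pos (by linarith) h3, ?_, ?_⟩
      · rw [← add_div, div_eq_one_iff_eq h3.ne']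
        ring
      · rw [hc x, hc x0, hc x1, mulVec_smul, mulVec_smul, mulVec_smul, smul_smul, smul_smul,
          ← add_smul]
        congr 1
        field_simp
        ring
    exact (hy.2 (subset_convexHull ℝ _ (hsubr x0 hx0 (hmem x0 M hM)))
      (subset_convexHull ℝ _ (hsubr x1 hx1 (hmem x1 M hM))) hseg).symm
  rcases key with h | h
  · left
    refine ext_of_subset (hsubr x0 hx0) ?_ hy
    rw [h]
    exact hmem x0 M hM
  · right
    refine ext_of_subset (hsubr x1 hx1) ?_ hy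
    rw [h]
    exact hmem x1 M hM

lemma count {S₀ S : Finset (Matrix (Fin n) (Fin n) ℝ)} (hsub : S₀ ⊆ S)
    (hr : ∀ T ∈ S, T ∉ S₀ → R1 T) (a : Fin n → ℝ) {k β : ℕ}
    (hβ : ∀ m ≤ k, ∀ v : Fin n → ℝ, numExt S₀ m v ≤ β) :
    numExt S k a ≤ β + k * S.card * (2 * β) := by
  classical
  have hfin : ∀ (m : ℕ) (v : Fin n → ℝ),
      (Set.extremePoints ℝ (convexHull ℝ (reach S₀ v m))).Finite := fun m v =>
    (reach_finite S₀ v m).1.subset extremePoints_convexHull_subset
  have hA : ∀ p : ℕ × Matrix (Fin n) (Fin n) ℝ, ∃ A : Finset (Fin n → ℝ), A.card ≤ 2 * β ∧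
      (p.2 ∈ S → p.2 ∉ S₀ → ∀ m : ℕ, p.1 + 1 + m = k →
        ∀ y ∈ Set.extremePoints ℝ (convexHull ℝ (reach S a k)),
        (∃ x ∈ reach S a p.1, ∃ M ∈ prods S₀ m, y = M *ᵥ (p.2 *ᵥ x)) → y ∈ A) := by
    rintro ⟨j, T⟩
    by_cases h : T ∈ S ∧ T ∉ S₀ ∧ j + 1 ≤ k
    · obtain ⟨lo, hi, hlh⟩ := through hsub a h.1 (hr T h.1 h.2.1) j (k - (j + 1))
      refine ⟨(hfin (k - (j + 1)) lo).toFinset ∪ (hfin (k - (j + 1)) hi).toFinset, ?_, ?_⟩
      · refine (Finset.card_union_le _ _).trans ?_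
        rw [← Set.ncard_eq_toFinset_card _ (hfin (k - (j + 1)) lo),
          ← Set.ncard_eq_toFinset_card _ (hfin (k - (j + 1)) hi)]
        have h1 := hβ (k - (j + 1)) (by omega) lo
        have h2 := hβ (k - (j + 1)) (by omega) hi
        unfold numExt at h1 h2
        omega
      · intro _ _ m hm y hy hex
        have hm' : m = k - (j + 1) := by
          simp only at hm
          omega
        subst hm'
        have e : j + 1 + (k - (j + 1)) = k := by omega
        rw [e] at hlh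
        rcases hlh y hy hex with h1 | h1
        · exact Finset.mem_union_left _ ((hfin _ lo).mem_toFinset.2 h1)
        · exact Finset.mem_union_right _ ((hfin _ hi).mem_toFinset.2 h1)
    · refine ⟨∅, by simp, fun h1 h2 m hm => ?_⟩
      exfalso
      apply h
      simp only at hm h1 h2
      exact ⟨h1, h2, by omega⟩
  choose A hA1 hA2 using hA
  have hcov : Set.extremePoints ℝ (convexHull ℝ (reach S a k)) ⊆
      (((hfin k a).toFinset ∪ (Finset.range k ×ˢ S).biUnion A : Finset (Fin n → ℝ)) :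
        Set (Fin n → ℝ)) := by
    intro y hy
    rw [Finset.coe_union]
    have hyr : y ∈ reach S a k := extremePoints_convexHull_subset hy
    rcases decomp S₀ S a k y hyr with h | ⟨j, m, hjm, T, hT, hT0, x, hx, M, hM, hyM⟩
    · left
      rw [Finset.mem_coe, (hfin k a).mem_toFinset]
      refine ext_of_subset ?_ h hy
      intro z hz
      rw [reach_eq] at hz
      obtain ⟨M, hM, rfl⟩ := hz
      have := reach_comp hsub (S := S) (a := a) (x := a) (j := 0) rfl hM
      rwa [zero_add] at this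
    · right
      rw [Finset.mem_coe, Finset.mem_biUnion]
      exact ⟨(j, T), Finset.mem_product.2 ⟨Finset.mem_range.2 (by omega), hT⟩,
        hA2 (j, T) hT hT0 m hjm y hy ⟨x, hx, M, hM, hyM⟩⟩
  unfold numExt
  calc _ ≤ _ := Set.ncard_le_ncard hcov (Finset.finite_toSet _)
    _ = _ := Set.ncard_coe_finset _
    _ ≤ (hfin k a).toFinset.card + ((Finset.range k ×ˢ S).biUnion A).card :=
        Finset.card_union_le _ _
    _ ≤ β + (Finset.range k ×ˢ S).card * (2 * β) := by
        refine add_le_add ?_ (Finset.card_biUnion_le_card_mul _ _ _ fun p _ => hA1 p)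
        rw [← Set.ncard_eq_toFinset_card _ (hfin k a)]
        exact hβ k le_rfl a
    _ = _ := by rw [Finset.card_product, Finset.card_range]

/-- Adding matrices of rank at most one preserves (PV). -/
theorem pv_extend {n : ℕ} (S₀ S : Finset (Matrix (Fin n) (Fin n) ℝ)) (hsub : S₀ ⊆ S)
    (hr : ∀ T ∈ S, T ∉ S₀ → R1 T) (h : PV S₀) : PV S := by
  obtain ⟨α, d, hα, hd, k₀, hk₀, hk⟩ := h
  set K : ℕ := (S₀.card + 1) ^ k₀ with hK
  refine ⟨(α + 1 + K) * (1 + 2 * S.card), d + 1, by positivity, by positivity, 1, one_pos, ?_⟩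
  intro k hk1 a
  have hk1' : (1 : ℝ) ≤ k := by exact_mod_cast hk1
  have hkd : (1 : ℝ) ≤ (k : ℝ) ^ d := Real.one_le_rpow hk1' hd.le
  set β : ℕ := ⌈α * (k : ℝ) ^ d⌉₊ + K with hβ
  have h1 : ∀ m ≤ k, ∀ v : Fin n → ℝ, numExt S₀ m v ≤ β := by
    intro m hm v
    by_cases hmk : k₀ ≤ m
    · have h2 := hk m hmk v
      have h3 : (m : ℝ) ^ d ≤ (k : ℝ) ^ d :=
        Real.rpow_le_rpow (by positivity) (by exact_mod_cast hm) hd.le
      have h4 : (numExt S₀ m v : ℝ) ≤ ⌈α * (k : ℝ) ^ d⌉₊ :=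
        (h2.trans (mul_le_mul_of_nonneg_left h3 hα.le)).trans (Nat.le_ceil _)
      have h5 : numExt S₀ m v ≤ ⌈α * (k : ℝ) ^ d⌉₊ := by exact_mod_cast h4
      omega
    · have h2 := numExt_le S₀ m v
      have h3 : S₀.card ^ m ≤ K := by
        calc S₀.card ^ m ≤ (S₀.card + 1) ^ m := Nat.pow_le_pow_left (Nat.le_succ _) _
          _ ≤ _ := Nat.pow_le_pow_right (Nat.succ_pos _) (by omega)
      omega
  have h2 := count hsub hr a h1
  have h3 : (numExt S k a : ℝ) ≤ β + k * S.card * (2 * β) := by exact_mod_cast h2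
  have h4 : (β : ℝ) ≤ (α + 1 + K) * (k : ℝ) ^ d := by
    have h5 : (⌈α * (k : ℝ) ^ d⌉₊ : ℝ) ≤ α * (k : ℝ) ^ d + 1 :=
      (Nat.ceil_lt_add_one (by positivity)).le
    have h6 : (K : ℝ) ≤ K * (k : ℝ) ^ d := le_mul_of_one_le_right (by positivity) hkd
    rw [hβ]
    push_cast
    nlinarith
  have hβ0 : (0 : ℝ) ≤ β := by positivity
  have hS0 : (0 : ℝ) ≤ (S.card : ℝ) := by positivity
  calc (numExt S k a : ℝ) ≤ β + k * S.card * (2 * β) := h3
    _ = β * (1 + 2 * S.card * k) := by ring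
    _ ≤ β * ((1 + 2 * S.card) * k) := by
        refine mul_le_mul_of_nonneg_left ?_ hβ0
        nlinarith
    _ ≤ ((α + 1 + K) * (k : ℝ) ^ d) * ((1 + 2 * S.card) * k) := by
        refine mul_le_mul_of_nonneg_right h4 (by positivity)
    _ = (α + 1 + K) * (1 + 2 * S.card) * (k : ℝ) ^ (d + 1) := by
        rw [Real.rpow_add (by positivity), Real.rpow_one]
        ring

/-! ### Sets of `2 × 2` matrices that are not strongly irreducible -/

/-- polynomial bounds in `k + 1` suffice -/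
lemma pv_of_bound {S : Finset (Matrix (Fin 2) (Fin 2) ℝ)} {C m : ℕ}
    (h : ∀ k a, numExt S k a ≤ C * (k + 1) ^ m) : PV S := by
  refine ⟨(C + 1) * 2 ^ (m + 1), m + 1, by positivity, by positivity, 1, one_pos, ?_⟩
  intro k hk a
  have hk' : (1 : ℝ) ≤ k := by exact_mod_cast hk
  have h1 : (numExt S k a : ℝ) ≤ C * ((k : ℝ) + 1) ^ m := by exact_mod_cast h k a
  have h2 : ((k : ℝ) + 1) ^ m ≤ ((k : ℝ) + 1) ^ (m + 1) :=
    pow_le_pow_right₀ (by linarith) (Nat.le_succ m)
  have h3 : ((k : ℝ) + 1) ^ (m + 1) ≤ (2 * (k : ℝ)) ^ (m + 1) :=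
    pow_le_pow_left₀ (by linarith) (by linarith) _
  have h4 : (k : ℝ) ^ ((m : ℝ) + 1) = (k : ℝ) ^ (m + 1) := by
    rw [← Real.rpow_natCast]
    push_cast
    rfl
  rw [h4]
  have h5 : (0 : ℝ) ≤ (C : ℝ) := by positivity
  calc (numExt S k a : ℝ) ≤ C * ((k : ℝ) + 1) ^ m := h1
    _ ≤ C * (2 * (k : ℝ)) ^ (m + 1) := mul_le_mul_of_nonneg_left (h2.trans h3) h5
    _ ≤ (C + 1) * (2 * (k : ℝ)) ^ (m + 1) := by
        have : (0 : ℝ) ≤ (2 * (k : ℝ)) ^ (m + 1) := by positivity
        nlinarith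
    _ = (C + 1) * 2 ^ (m + 1) * (k : ℝ) ^ (m + 1) := by rw [mul_pow]; ring

/-! ### A common invariant line -/

/-- extreme points on a line -/
lemma ext_line {D E : Set (Fin 2 → ℝ)} (hE : E ⊆ Set.extremePoints ℝ D) (hfin : E.Finite)
    (g : (Fin 2 → ℝ) → ℝ)
    (hg : ∀ p ∈ E, ∀ q ∈ E, ∀ r ∈ E, g p < g q → g q < g r → q ∈ openSegment ℝ p r)
    (hinj : Set.InjOn g E) : E.ncard ≤ 2 := by
  classical
  rcases E.eq_empty_or_nonempty with rfl | hne
  · simp
  obtain ⟨p0, hp0, hmin⟩ := Set.exists_min_image E g hfin hne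
  obtain ⟨p1, hp1, hmax⟩ := Set.exists_max_image E g hfin hne
  have hsub : E ⊆ {p0, p1} := by
    intro q hq
    rcases (hmin q hq).eq_or_lt with h | h
    · exact Or.inl (hinj hq hp0 h.symm)
    rcases (hmax q hq).eq_or_lt with h' | h'
    · exact Or.inr (hinj hq hp1 h')
    exfalso
    have h1 := hg p0 hp0 q hq p1 hp1 h h'
    have h2 := (hE hq).2 (hE hp0).1 (hE hp1).1 h1
    rw [h2] at h
    exact absurd h (lt_irrefl _)
  exact (Set.ncard_le_ncard hsub (Set.toFinite _)).trans ((Set.ncard_insert_le p0 {p1}).trans (by simp))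

/-- words: the values of a multiplicative functional -/
lemma values {S : Finset (Matrix (Fin 2) (Fin 2) ℝ)} {f : (Fin 2 → ℝ) → ℝ}
    {r : Matrix (Fin 2) (Fin 2) ℝ → ℝ} (hf : ∀ T ∈ S, ∀ x, f (T *ᵥ x) = r T * f x)
    (a : Fin 2 → ℝ) (k : ℕ) : ∀ x ∈ reach S a k, ∃ A : Matrix (Fin 2) (Fin 2) ℝ → ℕ,
      (∀ T, A T ≤ k) ∧ f x = (∏ T ∈ S, r T ^ A T) * f a := by
  classical
  induction k with
  | zero =>
    rintro x rfl
    exact ⟨fun _ => 0, fun _ => le_rfl, by simp⟩
  | succ k ih =>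
    rintro y ⟨T, hT, x, hx, rfl⟩
    obtain ⟨A, hA, hfx⟩ := ih x hx
    refine ⟨Function.update A T (A T + 1), fun U => ?_, ?_⟩
    · by_cases h : U = T
      · subst h
        rw [Function.update_self]
        have := hA U
        omega
      · rw [Function.update_of_ne h]
        exact (hA U).trans (Nat.le_succ k)
    · rw [hf T hT, hfx, ← Finset.mul_prod_erase S _ hT, ← Finset.mul_prod_erase S _ hT,
        Function.update_self]
      have : ∏ U ∈ S.erase T, r U ^ Function.update A T (A T + 1) U =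
          ∏ U ∈ S.erase T, r U ^ A U := by
        refine Finset.prod_congr rfl fun U hU => ?_
        rw [Function.update_of_ne (Finset.ne_of_mem_erase hU)]
      rw [this, pow_succ]
      ring

lemma pv_of_line {S : Finset (Matrix (Fin 2) (Fin 2) ℝ)} {f : Fin 2 → ℝ} (hf0 : f ≠ 0)
    (hf : ∀ T ∈ S, ∃ r : ℝ, f ᵥ* T = r • f) : PV S := by
  classical
  have hf' : ∀ T : Matrix (Fin 2) (Fin 2) ℝ, ∃ r : ℝ, T ∈ S → f ᵥ* T = r • f := by
    intro T
    by_cases hT : T ∈ S
    · obtain ⟨r, hr⟩ := hf T hT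
      exact ⟨r, fun _ => hr⟩
    · exact ⟨0, fun h => absurd h hT⟩
  choose r hr using hf'
  let F : (Fin 2 → ℝ) → ℝ := fun x => f ⬝ᵥ x
  let g : (Fin 2 → ℝ) → ℝ := fun x => -f 1 * x 0 + f 0 * x 1
  have hF : ∀ T ∈ S, ∀ x, F (T *ᵥ x) = r T * F x := by
    intro T hT x
    simp only [F]
    rw [dotProduct_mulVec, hr T hT, smul_dotProduct, smul_eq_mul]
  have hpos : 0 < f 0 ^ 2 + f 1 ^ 2 := by
    rcases eq_or_ne (f 0) 0 with h0 | h0
    · rcases eq_or_ne (f 1) 0 with h1 | h1
      · exact absurd (by funext i; fin_cases i <;> simp [h0, h1]) hf0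
      · positivity
    · positivity
  have hFg : ∀ x y : Fin 2 → ℝ, F x = F y → g x = g y → x = y := by
    intro x y h1 h2
    simp only [F, g, dotProduct, Fin.sum_univ_two] at h1 h2
    have e0 : (f 0 ^ 2 + f 1 ^ 2) * (x 0 - y 0) = 0 := by
      linear_combination f 0 * h1 - f 1 * h2
    have e1 : (f 0 ^ 2 + f 1 ^ 2) * (x 1 - y 1) = 0 := by
      linear_combination f 1 * h1 + f 0 * h2
    have e0' := (mul_eq_zero.1 e0).resolve_left hpos.ne'
    have e1' := (mul_eq_zero.1 e1).resolve_left hpos.ne'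
    funext i
    fin_cases i
    · exact sub_eq_zero.1 e0'
    · exact sub_eq_zero.1 e1'
  refine pv_of_bound (C := 2) (m := S.card) fun k a => ?_
  unfold numExt
  set D := convexHull ℝ (reach S a k) with hD
  have hsub : Set.extremePoints ℝ D ⊆ reach S a k := extremePoints_convexHull_subset
  have hfin : (Set.extremePoints ℝ D).Finite := (reach_finite S a k).1.subset hsub
  rw [Set.ncard_eq_toFinset_card _ hfin]
  have h1 : hfin.toFinset.card ≤ 2 * (hfin.toFinset.image F).card := by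
    refine Finset.card_le_mul_card_image _ 2 fun v hv => ?_
    have h2 := ext_line (D := D) (E := {x | x ∈ Set.extremePoints ℝ D ∧ F x = v})
      (fun x hx => hx.1) (hfin.subset fun x hx => hx.1) g
      (by
        rintro p ⟨_, hp⟩ q ⟨_, hq⟩ w ⟨_, hw⟩ hpq hqw
        have hpw : 0 < g w - g p := by linarith
        refine ⟨(g w - g q) / (g w - g p), (g q - g p) / (g w - g p),
          div_pos (by linarith) hpw, div_pos (by linarith) hpw, ?_, ?_⟩
        · rw [← add_div]
          rw [div_eq_one_iff_eq hpw.ne']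
          ring
        · apply hFg
          · have e : F (((g w - g q) / (g w - g p)) • p + ((g q - g p) / (g w - g p)) • w) =
                ((g w - g q) / (g w - g p)) * F p + ((g q - g p) / (g w - g p)) * F w := by
              simp only [F, dotProduct_add, dotProduct_smul, smul_eq_mul]
            rw [e, hp, hw, hq, ← add_mul, ← add_div]
            have : (g w - g q + (g q - g p)) / (g w - g p) = 1 := by
              rw [div_eq_one_iff_eq hpw.ne']
              ring
            rw [this, one_mul]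
          · have e : g (((g w - g q) / (g w - g p)) • p + ((g q - g p) / (g w - g p)) • w) =
                ((g w - g q) / (g w - g p)) * g p + ((g q - g p) / (g w - g p)) * g w := by
              simp only [g, Pi.add_apply, Pi.smul_apply, smul_eq_mul]
              ring
            rw [e]
            field_simp
            ring)
      (by
        rintro p ⟨_, hp⟩ q ⟨_, hq⟩ h
        exact hFg p q (hp.trans hq.symm) h)
    have h3 : (hfin.toFinset.filter fun x => F x = v).card =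
        {x | x ∈ Set.extremePoints ℝ D ∧ F x = v}.ncard := by
      rw [Set.ncard_eq_toFinset_card _ (hfin.subset fun x hx => hx.1)]
      congr 1
      ext x
      simp
    rw [h3]
    exact h2
  have h2 : (hfin.toFinset.image F).card ≤ (k + 1) ^ S.card := by
    let G : (S → Fin (k + 1)) → ℝ := fun A => (∏ T : S, r T ^ (A T : ℕ)) * F a
    have h3 : hfin.toFinset.image F ⊆ Finset.univ.image G := by
      intro v hv
      obtain ⟨x, hx, rfl⟩ := Finset.mem_image.1 hv
      obtain ⟨A, hA, hx2⟩ := values hF a k x (hsub (hfin.mem_toFinset.1 hx))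
      refine Finset.mem_image.2 ⟨fun T => ⟨A T, Nat.lt_succ_of_le (hA T)⟩, Finset.mem_univ _, ?_⟩
      simp only [G]
      rw [hx2, ← Finset.prod_coe_sort S (fun T => r T ^ A T)]
    calc _ ≤ _ := Finset.card_le_card h3
      _ ≤ (Finset.univ : Finset (S → Fin (k + 1))).card := Finset.card_image_le
      _ = _ := by simp
  calc _ ≤ _ := h1
    _ ≤ 2 * (k + 1) ^ S.card := Nat.mul_le_mul_left 2 h2

/-! ### Monomial matrices and similarities -/

lemma words {K : Type*} [CommMonoid K] (σ : K →* K) (hσ : ∀ z, σ (σ z) = z)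
    {S : Finset (Matrix (Fin 2) (Fin 2) ℝ)} (E : (Fin 2 → ℝ) → K)
    (α : Matrix (Fin 2) (Fin 2) ℝ → K) (e : Matrix (Fin 2) (Fin 2) ℝ → Bool)
    (hE : ∀ T ∈ S, ∀ x, E (T *ᵥ x) = α T * (if e T then σ (E x) else E x))
    (a : Fin 2 → ℝ) (k : ℕ) : ∀ x ∈ reach S a k, ∃ (A B : Matrix (Fin 2) (Fin 2) ℝ → ℕ) (ε : Bool),
      (∀ T, A T ≤ k) ∧ (∀ T, B T ≤ k) ∧
      E x = (∏ T ∈ S, (α T ^ A T * σ (α T) ^ B T)) * (if ε then σ (E a) else E a) := by
  classical
  induction k with
  | zero =>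
    rintro x rfl
    exact ⟨fun _ => 0, fun _ => 0, false, fun _ => le_rfl, fun _ => le_rfl, by simp⟩
  | succ k ih =>
    rintro y ⟨T, hT, x, hx, rfl⟩
    obtain ⟨A, B, ε, hA, hB, hfx⟩ := ih x hx
    have key : ∀ (A B : Matrix (Fin 2) (Fin 2) ℝ → ℕ) (z : K),
        α T * ((∏ U ∈ S, (α U ^ A U * σ (α U) ^ B U)) * z) =
        (∏ U ∈ S, (α U ^ Function.update A T (A T + 1) U * σ (α U) ^ B U)) * z := by
      intro A B z
      rw [← Finset.mul_prod_erase S _ hT,
        ← Finset.mul_prod_erase S (fun U => α U ^ Function.update A T (A T + 1) U * σ (α U) ^ B U) hT,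
        Function.update_self]
      have : ∏ U ∈ S.erase T, (α U ^ Function.update A T (A T + 1) U * σ (α U) ^ B U) =
          ∏ U ∈ S.erase T, (α U ^ A U * σ (α U) ^ B U) := by
        refine Finset.prod_congr rfl fun U hU => ?_
        rw [Function.update_of_ne (Finset.ne_of_mem_erase hU)]
      rw [this, pow_succ']
      simp only [mul_assoc]
    have hup : ∀ A : Matrix (Fin 2) (Fin 2) ℝ → ℕ, (∀ U, A U ≤ k) →
        ∀ U, Function.update A T (A T + 1) U ≤ k + 1 := by
      intro A hA U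
      by_cases h : U = T
      · subst h
        rw [Function.update_self]
        have := hA U
        omega
      · rw [Function.update_of_ne h]
        exact (hA U).trans (Nat.le_succ k)
    rw [hE T hT, hfx]
    cases he : e T with
    | false =>
      refine ⟨Function.update A T (A T + 1), B, ε, hup A hA, fun U => (hB U).trans (Nat.le_succ k),
        ?_⟩
      simp only [Bool.false_eq_true, if_false]
      exact key A B _
    | true =>
      refine ⟨Function.update B T (B T + 1), A, !ε, hup B hB, fun U => (hA U).trans (Nat.le_succ k),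
        ?_⟩
      simp only [if_true]
      rw [← key B A, map_mul, map_prod]
      congr 2
      · refine Finset.prod_congr rfl fun U _ => ?_
        rw [map_mul, map_pow, map_pow, hσ, mul_comm]
      · cases ε <;> simp [hσ]

lemma pv_of_words {K : Type*} [CommMonoid K] (σ : K →* K) (hσ : ∀ z, σ (σ z) = z)
    {S : Finset (Matrix (Fin 2) (Fin 2) ℝ)} (E : (Fin 2 → ℝ) → K) (hinj : Function.Injective E)
    (hE : ∀ T ∈ S, ∃ (α : K) (e : Bool), ∀ x, E (T *ᵥ x) = α * (if e then σ (E x) else E x)) :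
    PV S := by
  classical
  have hE' : ∀ T : Matrix (Fin 2) (Fin 2) ℝ, ∃ (α : K) (e : Bool), T ∈ S →
      ∀ x, E (T *ᵥ x) = α * (if e then σ (E x) else E x) := by
    intro T
    by_cases hT : T ∈ S
    · obtain ⟨α, e, h⟩ := hE T hT
      exact ⟨α, e, fun _ => h⟩
    · exact ⟨1, false, fun h => absurd h hT⟩
  choose α e h using hE'
  refine pv_of_bound (C := 2) (m := 2 * S.card) fun k a => ?_
  unfold numExt
  have hsub : Set.extremePoints ℝ (convexHull ℝ (reach S a k)) ⊆ reach S a k :=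
    extremePoints_convexHull_subset
  refine (Set.ncard_le_ncard hsub (reach_finite S a k).1).trans ?_
  rw [← Set.ncard_image_of_injective _ hinj]
  let G : (S → Fin (k + 1)) × (S → Fin (k + 1)) × Bool → K := fun p =>
    (∏ T : S, (α T ^ (p.1 T : ℕ) * σ (α T) ^ (p.2.1 T : ℕ))) * (if p.2.2 then σ (E a) else E a)
  have h3 : E '' reach S a k ⊆ Set.range G := by
    rintro _ ⟨x, hx, rfl⟩
    obtain ⟨A, B, ε, hA, hB, hx2⟩ := words σ hσ E α e h a k x hx
    refine ⟨(fun T => ⟨A T, Nat.lt_succ_of_le (hA T)⟩, fun T => ⟨B T, Nat.lt_succ_of_le (hB T)⟩, ε),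
      ?_⟩
    simp only [G]
    rw [hx2, ← Finset.prod_coe_sort S (fun T => α T ^ A T * σ (α T) ^ B T)]
  refine (Set.ncard_le_ncard h3 (Set.toFinite _)).trans ?_
  rw [← Set.image_univ]
  refine (Set.ncard_image_le (Set.toFinite _)).trans (le_of_eq ?_)
  rw [Set.ncard_univ]
  simp
  ring

/-- The polynomial-vertex property for every finite set `S` of real `2 × 2` matrices with a
common eigenvector, or such that in a common basis all matrices of `S` are diagonal or
antidiagonal, or such that in a common basis all matrices of `S` are scalar multiples of rotations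
or reflections. -/
theorem pv_two (S : Finset (Matrix (Fin 2) (Fin 2) ℝ))
    (h : (∃ v : Fin 2 → ℝ, v ≠ 0 ∧ ∀ T ∈ S, ∃ r : ℝ, T *ᵥ v = r • v) ∨
      (∃ P : Matrix (Fin 2) (Fin 2) ℝ, IsUnit P.det ∧
        ∀ T ∈ S, ∃ u v : ℝ, P * T = !![u, 0; 0, v] * P ∨ P * T = !![0, u; v, 0] * P) ∨
      (∃ P : Matrix (Fin 2) (Fin 2) ℝ, IsUnit P.det ∧
        ∀ T ∈ S, ∃ u v : ℝ, P * T = !![u, -v; v, u] * P ∨ P * T = !![u, v; v, -u] * P)) :
    PV S := by
  rcases h with ⟨v, hv, h⟩ | ⟨P, hP, h⟩ | ⟨P, hP, h⟩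
  · refine pv_of_line (f := ![-v 1, v 0]) ?_ ?_
    · intro h0
      apply hv
      have h1 := congrFun h0 0
      have h2 := congrFun h0 1
      simp at h1 h2
      funext i
      fin_cases i
      · exact h2
      · exact h1
    · intro T hT
      obtain ⟨r, hr⟩ := h T hT
      refine ⟨T 0 0 + T 1 1 - r, ?_⟩
      have h1 := congrFun hr 0
      have h2 := congrFun hr 1
      simp only [mulVec, dotProduct, Fin.sum_univ_two, Pi.smul_apply, smul_eq_mul] at h1 h2
      funext i
      fin_cases i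
      · simp [vecMul, dotProduct, Fin.sum_univ_two]
        linear_combination h2
      · simp [vecMul, dotProduct, Fin.sum_univ_two]
        linear_combination -h1
  · have hinj : Function.Injective fun x : Fin 2 → ℝ => P *ᵥ x :=
      Matrix.mulVec_injective_of_isUnit ((Matrix.isUnit_iff_isUnit_det P).2 hP)
    let E : (Fin 2 → ℝ) → ℝ × ℝ := fun x => ((P *ᵥ x) 0, (P *ᵥ x) 1)
    have hE : Function.Injective E := by
      intro x y hxy
      apply hinj
      simp only [E, Prod.mk.injEq] at hxy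
      funext i
      fin_cases i
      · exact hxy.1
      · exact hxy.2
    let σ : ℝ × ℝ →* ℝ × ℝ :=
      { toFun := Prod.swap
        map_one' := rfl
        map_mul' := fun _ _ => rfl }
    refine pv_of_words σ (fun z => Prod.swap_swap z) E hE ?_
    intro T hT
    obtain ⟨u, v, h1 | h1⟩ := h T hT
    · refine ⟨(u, v), false, fun x => ?_⟩
      have h2 : P *ᵥ (T *ᵥ x) = !![u, 0; 0, v] *ᵥ (P *ᵥ x) := by
        rw [mulVec_mulVec, h1, ← mulVec_mulVec]
      simp only [E, h2]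
      ext <;> simp [mulVec, dotProduct, Fin.sum_univ_two]
    · refine ⟨(u, v), true, fun x => ?_⟩
      have h2 : P *ᵥ (T *ᵥ x) = !![0, u; v, 0] *ᵥ (P *ᵥ x) := by
        rw [mulVec_mulVec, h1, ← mulVec_mulVec]
      simp only [E, h2]
      ext <;> simp [mulVec, dotProduct, Fin.sum_univ_two, σ]
  · have hinj : Function.Injective fun x : Fin 2 → ℝ => P *ᵥ x :=
      Matrix.mulVec_injective_of_isUnit ((Matrix.isUnit_iff_isUnit_det P).2 hP)
    let E : (Fin 2 → ℝ) → ℂ := fun x => ⟨(P *ᵥ x) 0, (P *ᵥ x) 1⟩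
    have hE : Function.Injective E := by
      intro x y hxy
      apply hinj
      have h1 := congrArg Complex.re hxy
      have h2 := congrArg Complex.im hxy
      funext i
      fin_cases i
      · exact h1
      · exact h2
    let σ : ℂ →* ℂ := (starRingEnd ℂ : ℂ →* ℂ)
    refine pv_of_words σ (fun z => Complex.conj_conj z) E hE ?_
    intro T hT
    obtain ⟨u, v, h1 | h1⟩ := h T hT
    · refine ⟨⟨u, v⟩, false, fun x => ?_⟩
      have h2 : P *ᵥ (T *ᵥ x) = !![u, -v; v, u] *ᵥ (P *ᵥ x) := by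
        rw [mulVec_mulVec, h1, ← mulVec_mulVec]
      simp only [E, h2]
      apply Complex.ext
      · simp
        ring
      · simp
        ring
    · refine ⟨⟨u, v⟩, true, fun x => ?_⟩
      have h2 : P *ᵥ (T *ᵥ x) = !![u, v; v, -u] *ᵥ (P *ᵥ x) := by
        rw [mulVec_mulVec, h1, ← mulVec_mulVec]
      simp only [E, h2]
      apply Complex.ext
      · simp [σ]
        ring
      · simp [σ]
        ring


/-- singular `2 × 2` matrices -/
lemma r1_of_det {T : Matrix (Fin 2) (Fin 2) ℝ} (h : T.det = 0) : R1 T := by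
  rw [det_fin_two] at h
  by_cases h0 : T 0 0 = 0
  · by_cases h1 : T 0 1 = 0
    · refine ⟨![0, 1], fun x => T 1 0 * x 0 + T 1 1 * x 1, fun x => ?_⟩
      funext i
      fin_cases i
      · simp [mulVec, dotProduct, Fin.sum_univ_two, h0, h1]
      · simp [mulVec, dotProduct, Fin.sum_univ_two]
    · refine ⟨![1, T 1 1 / T 0 1], fun x => T 0 0 * x 0 + T 0 1 * x 1, fun x => ?_⟩
      have h2 : T 1 0 = 0 := by
        rw [h0, zero_mul, zero_sub, neg_eq_zero] at h
        exact (mul_eq_zero.1 h).resolve_left h1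
      funext i
      fin_cases i
      · simp [mulVec, dotProduct, Fin.sum_univ_two]
      · simp [mulVec, dotProduct, Fin.sum_univ_two, h0, h2]
        field_simp
  · refine ⟨![1, T 1 0 / T 0 0], fun x => T 0 0 * x 0 + T 0 1 * x 1, fun x => ?_⟩
    have h2 : T 1 1 = T 0 1 * (T 1 0 / T 0 0) := by
      field_simp
      linarith
    funext i
    fin_cases i
    · simp [mulVec, dotProduct, Fin.sum_univ_two]
    · simp only [mulVec, dotProduct, Fin.sum_univ_two, Fin.mk_one, Pi.smul_apply, smul_eq_mul,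
        cons_val_one, h2]
      simp only [cons_val_fin_one]
      field_simp

/-- **The polynomial-vertex property** for every finite set `S` of real `2 × 2` matrices whose
invertible matrices have a common eigenvector, or are in a common basis diagonal or antidiagonal, or
are in a common basis scalar multiples of rotations or reflections. -/
theorem result (S : Finset (Matrix (Fin 2) (Fin 2) ℝ))
    (h : (∃ v : Fin 2 → ℝ, v ≠ 0 ∧ ∀ T ∈ S, T.det ≠ 0 → ∃ r : ℝ, T *ᵥ v = r • v) ∨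
      (∃ P : Matrix (Fin 2) (Fin 2) ℝ, IsUnit P.det ∧ ∀ T ∈ S, T.det ≠ 0 →
        ∃ u v : ℝ, P * T = !![u, 0; 0, v] * P ∨ P * T = !![0, u; v, 0] * P) ∨
      (∃ P : Matrix (Fin 2) (Fin 2) ℝ, IsUnit P.det ∧ ∀ T ∈ S, T.det ≠ 0 →
        ∃ u v : ℝ, P * T = !![u, -v; v, u] * P ∨ P * T = !![u, v; v, -u] * P)) :
    PV S := by
  classical
  refine pv_extend (S.filter fun T => T.det ≠ 0) S (Finset.filter_subset _ _) ?_ (pv_two _ ?_)
  · intro T hT hT0
    refine r1_of_det ?_
    by_contra hd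
    exact hT0 (Finset.mem_filter.2 ⟨hT, hd⟩)
  · rcases h with ⟨v, hv, h⟩ | ⟨P, hP, h⟩ | ⟨P, hP, h⟩
    · exact Or.inl ⟨v, hv, fun T hT => h T (Finset.mem_filter.1 hT).1 (Finset.mem_filter.1 hT).2⟩
    · exact Or.inr (Or.inl ⟨P, hP, fun T hT => h T (Finset.mem_filter.1 hT).1
        (Finset.mem_filter.1 hT).2⟩)
    · exact Or.inr (Or.inr ⟨P, hP, fun T hT => h T (Finset.mem_filter.1 hT).1
        (Finset.mem_filter.1 hT).2⟩)

end Pool.Agent.Results.MP_eceddd_an.NotStronglyIrreducible
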